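import Pool.Agent.Helper30_SkewP4.Stmts

/-!
# TCL and TEX: closed primitives for `e`, exactness on the level of `T`
-/

set_option autoImplicit false

open scoped TensorProduct

namespace Pool.Agent.SkewP4.H41

open Pool.Agent.SkewP4

theorem tcl (hko : TkoStmt) (hne : TneStmt) (hr : OprStmt) (hb : OpbStmt) : TclStmt := by
  intro p r m
  induction m with
  | zero =>
    intro t h1 h3 ht hN hD hE
    obtain ⟨u, hu, huN, huE, -⟩ := hko p r 0 t h3 ht (by simpa using hN) hE
    refine ⟨u, hu, by simpa using huN, ?_, huE⟩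
    refine hne (-1) (opD u) (by norm_num) ?_
    rw [hr.Ny_D, huN, map_smul]
    push_cast
    module
  | succ m ih =>
    intro t h1 h3 ht hN hD hE
    obtain ⟨u, hu, huN, huE, -⟩ := hko p r ((m + 1 : ℕ) : ℤ) t h3 ht (by simpa using hN) hE
    have huN' : opNy u = ((m : ℂ) + 1) • u := by simpa using huN
    obtain ⟨v, hv, hvN, hvD, hvE⟩ := ih (opD u) h1 h3 (hb.D_mem p r u hu)
      (by rw [hr.Ny_D, huN', map_smul]; module) (hr.DD u)
      (by
        have := hr.DE u
        rw [huE, hD] at this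
        rw [eq_comm, neg_eq_zero] at this
        exact this)
    obtain ⟨r', rfl⟩ : ∃ r', r = r' + 1 := ⟨r - 1, by omega⟩
    have hc : ((m : ℂ) + ((r' + 1 : ℕ) : ℂ)) ≠ 0 := by
      have : ((m : ℂ) + ((r' + 1 : ℕ) : ℂ)) = ((m + r' + 1 : ℕ) : ℂ) := by push_cast; ring
      rw [this]
      exact Nat.cast_ne_zero.mpr (by omega)
    set c : ℂ := (m : ℂ) + ((r' + 1 : ℕ) : ℂ) with hcdef
    have hDK : opD (opK v) = c • v := by
      have := hb.DK p (r' + 1) v hv
      rw [hvD, map_zero, add_zero, hvN] at this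
      rw [this, hcdef]
      module
    have hDH : opD (c⁻¹ • opK v) = v := by
      rw [map_smul, hDK, smul_smul, inv_mul_cancel₀ hc, one_smul]
    have hHm : c⁻¹ • opK v ∈ TP R p r' := Submodule.smul_mem _ _ (hb.K_mem p r' v hv)
    have hHN : opNy (c⁻¹ • opK v) = ((m : ℂ) + 1) • (c⁻¹ • opK v) := by
      rw [map_smul, hr.Ny_K, hvN, map_smul]
      module
    refine ⟨u + opE (c⁻¹ • opK v), Submodule.add_mem _ hu (hb.E_mem p r' _ hHm), ?_, ?_, ?_⟩
    · rw [map_add, huN', hr.Ny_E, hHN, map_smul]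
      push_cast
      module
    · rw [map_add, hr.DE, hDH, hvE, add_neg_cancel]
    · rw [map_add, huE, hr.EE, add_zero]

theorem tex (hcl : TclStmt) (hne : TneStmt) (hr : OprStmt) (hb : OpbStmt) : TexStmt := by
  intro p q k g hq hg hclosed
  obtain ⟨⟨hgT, hgK⟩, hgN⟩ := hg
  have hgK : opK g = 0 := hgK
  have hgN : opNy g = ((k : ℂ) - ((q + 1 : ℕ) : ℂ)) • g := by
    have h : (opNy - ((k : ℂ) - ((q + 1 : ℕ) : ℂ)) • (LinearMap.id : T →ₗ[ℂ] T)) g = 0 := hgN
    rw [LinearMap.sub_apply, LinearMap.smul_apply, LinearMap.id_apply, sub_eq_zero] at h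
    exact h
  have hGN : opNy (opD g) = ((k : ℂ) - q - 2) • opD g := by
    rw [hr.Ny_D, hgN, map_smul]
    push_cast
    module
  have hKD : opK (opD g) = (k : ℂ) • g := by
    have := hb.DK p (q + 1) g hgT
    rw [hgK, map_zero, zero_add, hgN] at this
    rw [this]
    module
  by_cases hm : k < q + 2
  · left
    have hD0 : opD g = 0 := by
      refine hne ((k : ℤ) - q - 2) (opD g) (by omega) ?_
      rw [hGN]
      push_cast
      rfl
    rcases Nat.eq_zero_or_pos k with hk | hk
    · subst hk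
      refine hne (-((q + 1 : ℕ) : ℤ)) g (by omega) ?_
      rw [hgN]
      push_cast
      congr 1
      ring
    · have hk0 : (k : ℂ) ≠ 0 := Nat.cast_ne_zero.mpr (by omega)
      rw [hD0, map_zero] at hKD
      exact (smul_eq_zero.mp hKD.symm).resolve_left hk0
  · right
    have hm' : q + 2 ≤ k := by omega
    refine ⟨by omega, ?_⟩
    obtain ⟨m, rfl⟩ : ∃ m, k = m + (q + 2) := ⟨k - (q + 2), by omega⟩
    have hEG : opE (opD g) = 0 := by
      apply hr.rho_inj
      rw [← hr.rho_E, hclosed, map_smul, hr.EE, smul_zero]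
    obtain ⟨u, hu, huN, huD, huE⟩ := hcl p (q + 1) m (opD g) (by omega) (by omega)
      (hb.D_mem p (q + 1) g hgT) (by rw [hGN]; congr 1; push_cast; ring) (hr.DD g) hEG
    have hkk : ((m + (q + 2) - 1 : ℕ) : ℂ) = (m : ℂ) + q + 1 := by
      have : m + (q + 2) - 1 = m + q + 1 := by omega
      rw [this]
      push_cast
      ring
    have hc : (m : ℂ) + q + 1 ≠ 0 := by
      have : (m : ℂ) + q + 1 = ((m + q + 1 : ℕ) : ℂ) := by push_cast; ring
      rw [this]
      exact Nat.cast_ne_zero.mpr (by omega)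
    set c : ℂ := (m : ℂ) + q + 1 with hcdef
    have hDK : opD (opK u) = c • u := by
      have := hb.DK p (q + 1) u hu
      rw [huD, map_zero, add_zero, huN] at this
      rw [this, hcdef]
      push_cast
      module
    have hD1 : opD (c⁻¹ • opK u) = u := by
      rw [map_smul, hDK, smul_smul, inv_mul_cancel₀ hc, one_smul]
    refine ⟨c⁻¹ • opK u, ⟨⟨Submodule.smul_mem _ _ (hb.K_mem p q u hu), ?_⟩, ?_⟩, ?_⟩
    · change opK (c⁻¹ • opK u) = 0
      rw [map_smul, hr.KK, smul_zero]
    · change (opNy - (((m + (q + 2) - 1 : ℕ) : ℂ) - (q : ℂ)) • (LinearMap.id : T →ₗ[ℂ] T)) (c⁻¹ • opK u) = 0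
      rw [LinearMap.sub_apply, LinearMap.smul_apply, LinearMap.id_apply, map_smul, hr.Ny_K, huN,
        map_smul, hkk, hcdef]
      module
    · rw [← hKD, hD1, ← huE]
      have h1 := hr.EK u
      have h2 : (((m + (q + 2) : ℕ) : ℂ) - 1) • opE (c⁻¹ • opK u) = opE (opK u) := by
        rw [map_smul, smul_smul]
        have : (((m + (q + 2) : ℕ) : ℂ) - 1) * c⁻¹ = 1 := by
          rw [mul_inv_eq_one₀ hc, hcdef]
          push_cast
          ring
        rw [this, one_smul]
      rw [h2, ← h1]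
      abel

end Pool.Agent.SkewP4.H41
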